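import Pool.Agent.H705.RO.Stm

/-! P_MOD of the project RO (owner helper705): the model exists. -/

set_option autoImplicit false

namespace Pool.Agent.H357.RO

open MeasureTheory ProbabilityTheory Filter Topology Finset
open Pool.Agent.H705.RO

theorem prob_I : IsProbabilityMeasure ((volume : Measure ℝ).restrict (Set.Icc (0 : ℝ) 1)) := by
  refine ⟨?_⟩
  rw [Measure.restrict_apply_univ, Real.volume_Icc]
  norm_num

theorem prob_sq : IsProbabilityMeasure sq := by
  have := prob_I
  unfold Pool.Agent.H705.RO.sq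
  infer_instance

theorem sq_fst : sq {p : ℝ × ℝ | ¬ p.1 ∈ Set.Icc (0 : ℝ) 1} = 0 := by
  have := prob_I
  have h1 : {p : ℝ × ℝ | ¬ p.1 ∈ Set.Icc (0 : ℝ) 1} = (Set.Icc (0 : ℝ) 1)ᶜ ×ˢ Set.univ := by
    ext p
    constructor
    · intro h
      exact ⟨h, Set.mem_univ _⟩
    · intro h
      exact h.1
  rw [h1]
  unfold Pool.Agent.H705.RO.sq
  rw [Measure.prod_prod, Measure.restrict_apply measurableSet_Icc.compl, Set.compl_inter_self,
    measure_empty, zero_mul]

theorem T_MOD : P_MOD := by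
  refine ⟨?_, prob_sq, ?_⟩
  · have := prob_sq
    refine ⟨ℕ → ℝ × ℝ, inferInstance, Measure.infinitePi (fun _ : ℕ => sq), fun n ω => ω n, ?_⟩
    refine ⟨inferInstance, fun n => measurable_pi_apply n, ?_, ?_⟩
    · exact iIndepFun_infinitePi (P := fun _ : ℕ => sq) (X := fun (_ : ℕ) (p : ℝ × ℝ) => p)
        (fun _ => measurable_id)
    · intro n
      exact Measure.infinitePi_map_eval (fun _ : ℕ => sq) n
  · intro Ω _ P X hM
    rw [ae_all_iff]
    intro n
    rw [ae_iff]
    have h1 : MeasurableSet {p : ℝ × ℝ | ¬ p.1 ∈ Set.Icc (0 : ℝ) 1} :=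
      (measurable_fst measurableSet_Icc).compl
    have h2 := Measure.map_apply (hM.meas n) (μ := P) h1
    rw [hM.law n, sq_fst] at h2
    exact h2.symm

end Pool.Agent.H357.RO
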